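import Mathlib.GroupTheory.SemidirectProduct
import Mathlib.GroupTheory.SpecificGroups.Cyclic
import Mathlib.GroupTheory.QuotientGroup.Basic
import Mathlib.Algebra.MonoidAlgebra.Basic
import Mathlib.Algebra.Module.Projective
import Mathlib.LinearAlgebra.FreeModule.Basic
import Mathlib.RingTheory.Finiteness.Defs
import Mathlib.Data.Real.Basic

/-!
Definitions used in the statement on projective modules over group rings of polycyclic groups.
-/

namespace Pool.Agent.Work.MP_164b00_al

universe u

/-- A group is polycyclic if it has a subnormal series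
`1 = H 0 ⊴ H 1 ⊴ ... ⊴ H n = G` with cyclic factors. -/
def IsPolycyclic (G : Type) [Group G] : Prop :=
  ∃ (n : ℕ) (H : ℕ → Subgroup G), H 0 = ⊥ ∧ H n = ⊤ ∧
    ∀ i < n, H i ≤ H (i + 1) ∧ ∃ _ : ((H i).subgroupOf (H (i + 1))).Normal,
      IsCyclic (H (i + 1) ⧸ (H i).subgroupOf (H (i + 1)))

/-- The only element of finite order is the identity. -/
def IsTorsionFreeGroup (G : Type) [Group G] : Prop :=
  ∀ g : G, IsOfFinOrder g → g = 1

/-- The left `A`-module `P` is isomorphic to the direct sum of a free module and a left ideal. -/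
def IsFreePlusIdeal (A : Type) [Ring A] (P : Type) [AddCommGroup P] [Module A P] : Prop :=
  ∃ (F : Type u) (_ : AddCommGroup F) (_ : Module A F) (_ : Module.Free A F) (I : Ideal A),
    Nonempty (P ≃ₗ[A] F × I)

/-- There is a finitely generated projective left `A`-module `P` with `P ⊕ A ≅ A^3` that is not
the direct sum of a free module and a left ideal. -/
def HasExoticProjective (A : Type) [Ring A] : Prop :=
  ∃ (P : Type) (_ : AddCommGroup P) (_ : Module A P),
    Nonempty ((P × A) ≃ₗ[A] (Fin 3 → A)) ∧ Module.Finite A P ∧ Module.Projective A P ∧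
      ¬ IsFreePlusIdeal.{u} A P

/-- The action of `ℤ` on `ℤ^4` in which the generator acts by `m ↦ -m`. -/
def act : Multiplicative ℤ →* MulAut (Multiplicative (Fin 4 → ℤ)) :=
  zpowersHom (MulAut (Multiplicative (Fin 4 → ℤ))) (MulEquiv.inv (Multiplicative (Fin 4 → ℤ)))

/-- The group `ℤ^4 ⋊ ℤ` with the generator of `ℤ` acting by `-1`. -/
abbrev Grp : Type := Multiplicative (Fin 4 → ℤ) ⋊[act] Multiplicative ℤ

end Pool.Agent.Work.MP_164b00_al
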