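import Pool.Agent.Work.MP_164b00_al.Defs
import Mathlib.Algebra.MonoidAlgebra.MapDomain
import Mathlib.LinearAlgebra.Dimension.Constructions
import Mathlib.LinearAlgebra.Dimension.Finrank
import Mathlib.LinearAlgebra.FreeModule.StrongRankCondition
import Mathlib.LinearAlgebra.FiniteDimensional.Defs
import Mathlib.RingTheory.Finiteness.Prod
import Mathlib.LinearAlgebra.Dimension.Finite

/-!
The group, its abelian subgroup of index two, and the rank argument.
-/

namespace Pool.Agent.Work.MP_164b00_al

open Multiplicative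

/-- The lattice. -/
abbrev Lat : Type := Multiplicative (Fin 4 → ℤ)

theorem act_even {j : Multiplicative ℤ} (h : Even j.toAdd) : act j = 1 := by
  obtain ⟨c, hc⟩ := h
  have : (MulEquiv.inv Lat : MulAut Lat) ^ (2 : ℤ) = 1 := by
    ext m : 1
    rw [zpow_two]
    simp
  simp only [act, zpowersHom_apply, hc, ← two_mul, zpow_mul, this, one_zpow]

theorem act_odd {j : Multiplicative ℤ} (h : ¬ Even j.toAdd) (m : Lat) : act j m = m⁻¹ := by
  obtain ⟨c, hc⟩ := Int.not_even_iff_odd.1 h
  have : j = ofAdd (2 * c) * ofAdd 1 := by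
    rw [← ofAdd_add, ← hc, ofAdd_toAdd]
  rw [this, map_mul, act_even (by simp), one_mul]
  simp [act]

theorem act_cases (j : Multiplicative ℤ) (m : Lat) : act j m = m ∨ act j m = m⁻¹ := by
  by_cases h : Even j.toAdd
  · left
    simp [act_even h]
  · exact Or.inr (act_odd h m)

theorem torsionFree : IsTorsionFreeGroup Grp := by
  intro g hg
  have h1 : g.right = 1 := by
    have := (SemidirectProduct.rightHom : Grp →* _).isOfFinOrder hg
    exact (isOfFinOrder_iff_eq_one _).1 this
  have h2 : g = SemidirectProduct.inl g.left := by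
    ext <;> simp [h1]
  rw [h2, SemidirectProduct.inl_injective.isOfFinOrder_iff] at hg
  rw [h2, (isOfFinOrder_iff_eq_one _).1 hg, map_one]

/-- The subnormal series. -/
def chain (i : ℕ) : Subgroup Grp where
  carrier := {g | (i < 5 → g.right = 1) ∧ ∀ l : Fin 4, i ≤ l.val → g.left.toAdd l = 0}
  mul_mem' := by
    rintro a b ⟨a1, a2⟩ ⟨b1, b2⟩
    refine ⟨fun h => by simp [a1 h, b1 h], fun l hl => ?_⟩
    rcases act_cases a.right b.left with e | e <;> simp [e, a2 l hl, b2 l hl]
  one_mem' := by simp
  inv_mem' := by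
    rintro a ⟨a1, a2⟩
    refine ⟨fun h => by simp [a1 h], fun l hl => ?_⟩
    rcases act_cases a.right⁻¹ a.left⁻¹ with e | e <;>
      simp only [SemidirectProduct.inv_left, e] <;> simp [a2 l hl]

theorem mem_chain (i : ℕ) (g : Grp) : g ∈ chain i ↔
    (i < 5 → g.right = 1) ∧ ∀ l : Fin 4, i ≤ l.val → g.left.toAdd l = 0 := Iff.rfl

theorem cyclic_factor {G : Type} [Group G] (K H : Subgroup G) [(K.subgroupOf H).Normal] (t : G)
    (ht : t ∈ H) (h : ∀ g ∈ H, ∃ n : ℤ, (t ^ n)⁻¹ * g ∈ K) : IsCyclic (H ⧸ K.subgroupOf H) := by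
  refine ⟨⟨QuotientGroup.mk ⟨t, ht⟩, fun x => ?_⟩⟩
  obtain ⟨⟨g, hg⟩, rfl⟩ := QuotientGroup.mk_surjective x
  obtain ⟨n, hn⟩ := h g hg
  refine ⟨n, ?_⟩
  simp only
  rw [← QuotientGroup.mk_zpow, QuotientGroup.eq]
  simpa [Subgroup.mem_subgroupOf] using hn

theorem polycyclic : IsPolycyclic Grp := by
  refine ⟨5, chain, ?_, ?_, fun i hi => ⟨?_, ?_⟩⟩
  · rw [eq_bot_iff]
    rintro g ⟨g1, g2⟩
    rw [Subgroup.mem_bot]
    ext
    · simpa using g2 _ (Nat.zero_le _)
    · simp [g1]
  · rw [eq_top_iff]
    intro g _
    exact ⟨fun h => by omega, fun l hl => by omega⟩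
  · rintro g ⟨g1, g2⟩
    exact ⟨fun _ => g1 hi, fun l hl => g2 l (by omega)⟩
  · have hn : ((chain i).subgroupOf (chain (i + 1))).Normal := by
      refine ⟨fun a ha g => ?_⟩
      rw [Subgroup.mem_subgroupOf] at ha ⊢
      obtain ⟨a1, a2⟩ := ha
      refine ⟨fun h => by simp [a1 h], fun l hl => ?_⟩
      have e : ((g * a * g⁻¹ : chain (i + 1)) : Grp).left = act g.1.right a.1.left := by
        simp only [Subgroup.coe_mul, InvMemClass.coe_inv, SemidirectProduct.mul_left,
          SemidirectProduct.mul_right, SemidirectProduct.inv_left, a1 hi, mul_one]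
        rw [← MulAut.mul_apply, ← map_mul, mul_inv_cancel, map_one, MulAut.one_apply,
          mul_right_comm, mul_inv_cancel, one_mul]
      rw [e]
      rcases act_cases g.1.right a.1.left with e | e <;> simp [e, a2 l hl]
    refine ⟨hn, ?_⟩
    by_cases h4 : i < 4
    · refine cyclic_factor _ _ (SemidirectProduct.inl (ofAdd (Pi.single ⟨i, h4⟩ 1))) ?_ ?_
      · refine ⟨fun _ => rfl, fun l hl => ?_⟩
        have : l ≠ ⟨i, h4⟩ := by
          rintro rfl
          simp at hl
        simp [this]
      · rintro g ⟨g1, g2⟩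
        refine ⟨g.left.toAdd ⟨i, h4⟩, ?_⟩
        rw [← map_zpow, ← map_inv, mem_chain]
        simp only [SemidirectProduct.mul_right, SemidirectProduct.right_inl,
          SemidirectProduct.mul_left, SemidirectProduct.left_inl, map_one, one_mul,
          MulAut.one_apply]
        refine ⟨fun _ => g1 (by omega), fun l hl => ?_⟩
        by_cases e : l = ⟨i, h4⟩
        · subst e
          simp
        · have : i + 1 ≤ l.val := by
            have : l.val ≠ i := fun h => e (Fin.ext h)
            omega
          simp [e, g2 l this]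
    · obtain rfl : i = 4 := by omega
      refine cyclic_factor _ _ (SemidirectProduct.inr (ofAdd 1)) ?_ ?_
      · exact ⟨fun h => by omega, fun l hl => by omega⟩
      · rintro g -
        refine ⟨g.right.toAdd, ?_⟩
        rw [← map_zpow, ← map_inv]
        refine ⟨fun _ => ?_, fun l hl => by omega⟩
        rw [SemidirectProduct.mul_right, SemidirectProduct.right_inr]
        simp [← ofAdd_zsmul]

/-- The abelian subgroup of index two. -/
abbrev Ab : Type := Lat × Multiplicative ℤ

/-- Its inclusion. -/
def inc : Ab →* Grp where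
  toFun h := ⟨h.1, h.2 ^ 2⟩
  map_one' := rfl
  map_mul' a b := by
    have : act (a.2 ^ 2) = 1 := act_even (by simp)
    ext : 1
    · change a.1 * b.1 = a.1 * act (a.2 ^ 2) b.1
      simp only [this, MulAut.one_apply]
    · exact mul_pow _ _ _

@[simp] theorem inc_left (h : Ab) : (inc h).left = h.1 := rfl

@[simp] theorem inc_right (h : Ab) : (inc h).right = h.2 ^ 2 := rfl

/-- The generator of the quotient. -/
def gen : Grp := SemidirectProduct.inr (ofAdd 1)

/-- Conjugation by the generator. -/
def flip : Ab →* Ab where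
  toFun h := (h.1⁻¹, h.2)
  map_one' := by simp
  map_mul' a b := by simp [mul_comm]

theorem gen_mul_inc (h : Ab) : gen * inc h = inc (flip h) * gen := by
  ext : 1
  · simp [gen, flip, act_odd]
  · simp [gen, flip, mul_comm]

theorem inc_injective : Function.Injective inc := by
  intro a b h
  have h1 := congrArg SemidirectProduct.left h
  have h2 := congrArg (fun g : Grp => g.right.toAdd) h
  simp only [inc_left, inc_right, toAdd_pow, nsmul_eq_mul] at h1 h2
  refine Prod.ext h1 (toAdd.injective ?_)
  push_cast at h2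
  omega

theorem inc_mul_ne (a b : Ab) : inc a * gen ≠ inc b := by
  intro h
  have h2 := congrArg (fun g : Grp => g.right.toAdd) h
  simp [gen] at h2
  omega

theorem inc_mul_ne' (a b : Ab) : inc a * gen⁻¹ ≠ inc b := by
  intro h
  apply inc_mul_ne b a
  rw [← h]
  simp

theorem exists_inc (g : Grp) : ∃ h, g = inc h ∨ g = inc h * gen := by
  rcases Int.even_or_odd' g.right.toAdd with ⟨c, hc | hc⟩
  · refine ⟨(g.left, ofAdd c), Or.inl ?_⟩
    ext : 1
    · rfl
    · apply toAdd.injective
      simp [hc]
  · refine ⟨(g.left, ofAdd c), Or.inr ?_⟩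
    ext : 1
    · simp [gen]
    · apply toAdd.injective
      simp [gen, hc]

variable (k : Type) [CommRing k]

/-- Inclusion of group rings. -/
noncomputable def iota : MonoidAlgebra k Ab →+* MonoidAlgebra k Grp :=
  MonoidAlgebra.mapDomainRingHom k inc

/-- The involution. -/
noncomputable def sig : MonoidAlgebra k Ab →+* MonoidAlgebra k Ab :=
  MonoidAlgebra.mapDomainRingHom k flip

/-- The generator in the group ring. -/
noncomputable def bb : MonoidAlgebra k Grp := MonoidAlgebra.single gen 1

variable {k}

@[simp] theorem iota_single (h : Ab) (a : k) :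
    iota k (MonoidAlgebra.single h a) = MonoidAlgebra.single (inc h) a := by simp [iota]

@[simp] theorem sig_single (h : Ab) (a : k) :
    sig k (MonoidAlgebra.single h a) = MonoidAlgebra.single (flip h) a := by simp [sig]

theorem sig_sig (r : MonoidAlgebra k Ab) : sig k (sig k r) = r := by
  induction r using MonoidAlgebra.induction_linear with
  | zero => simp
  | add a b ha hb => simp [ha, hb]
  | single h a => simp [flip]

theorem bb_mul (r : MonoidAlgebra k Ab) : bb k * iota k r = iota k (sig k r) * bb k := by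
  induction r using MonoidAlgebra.induction_linear with
  | zero => simp
  | add a b ha hb => simp [mul_add, add_mul, ha, hb]
  | single h a => simp [bb, MonoidAlgebra.single_mul_single, gen_mul_inc]

/-- The decomposition of the group ring over the subring. -/
noncomputable def dec : MonoidAlgebra k Ab × MonoidAlgebra k Ab →+ MonoidAlgebra k Grp where
  toFun s := iota k s.1 + iota k s.2 * bb k
  map_zero' := by simp
  map_add' a b := by
    simp only [Prod.fst_add, Prod.snd_add, map_add, add_mul]
    abel

theorem dec_bijective : Function.Bijective (dec (k := k)) := by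
  constructor
  · rw [injective_iff_map_eq_zero]
    rintro ⟨s, t⟩ h
    have c1 : ∀ (r : MonoidAlgebra k Ab) a, (iota k r).coeff (inc a) = r.coeff a := fun r a => by
      simp [iota, Finsupp.mapDomain_apply inc_injective]
    have c2 : ∀ (r : MonoidAlgebra k Ab) g, (∀ a, g ≠ inc a) → (iota k r).coeff g = 0 :=
      fun r g hg => by
        simp only [iota, MonoidAlgebra.mapDomainRingHom_apply, MonoidAlgebra.coeff_mapDomain]
        exact Finsupp.mapDomain_of_notMem_range _ _ fun ⟨a, ha⟩ => hg a ha.symm
    ext a
    · have := congrArg (fun x : MonoidAlgebra k Grp => x.coeff (inc a)) h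
      simpa [dec, bb, c1, c2 _ _ (inc_mul_ne' a)] using this
    · have := congrArg (fun x : MonoidAlgebra k Grp => x.coeff (inc a * gen)) h
      simpa [dec, bb, c1, c2 _ _ (inc_mul_ne a)] using this
  · intro x
    induction x using MonoidAlgebra.induction_linear with
    | zero => exact ⟨0, map_zero _⟩
    | add a b ha hb =>
      obtain ⟨a, rfl⟩ := ha
      obtain ⟨b, rfl⟩ := hb
      exact ⟨a + b, map_add _ _ _⟩
    | single g a =>
      obtain ⟨h, rfl | rfl⟩ := exists_inc g
      · exact ⟨(MonoidAlgebra.single h a, 0), by simp [dec]⟩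
      · exact ⟨(0, MonoidAlgebra.single h a), by simp [dec, bb, MonoidAlgebra.single_mul_single]⟩

theorem no_injective [Nontrivial k]
    (f : (Fin 3 → MonoidAlgebra k Grp) →ₗ[MonoidAlgebra k Grp]
      MonoidAlgebra k Grp × MonoidAlgebra k Grp) : ¬ Function.Injective f := by
  intro hf
  let _ : Module (MonoidAlgebra k Ab) (MonoidAlgebra k Grp) := Module.compHom _ (iota k)
  have hs : ∀ (s : MonoidAlgebra k Ab) (x : MonoidAlgebra k Grp), s • x = iota k s * x :=
    fun _ _ => rfl
  let d : (MonoidAlgebra k Ab × MonoidAlgebra k Ab) →ₗ[MonoidAlgebra k Ab] MonoidAlgebra k Grp :=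
    { toFun := dec
      map_add' := map_add _
      map_smul' := fun s x => by simp [hs, dec, mul_add, mul_assoc] }
  let e := LinearEquiv.ofBijective d dec_bijective
  let g : (Fin 3 → MonoidAlgebra k Grp) →ₗ[MonoidAlgebra k Ab]
      MonoidAlgebra k Grp × MonoidAlgebra k Grp :=
    { toFun := f
      map_add' := map_add _
      map_smul' := fun s x => f.map_smul (iota k s) x }
  have : Module.Free (MonoidAlgebra k Ab) (MonoidAlgebra k Grp) := Module.Free.of_equiv e
  have : Module.Finite (MonoidAlgebra k Ab) (MonoidAlgebra k Grp) := Module.Finite.equiv e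
  have h2 : Module.finrank (MonoidAlgebra k Ab) (MonoidAlgebra k Grp) = 2 := by
    rw [← e.finrank_eq]
    simp
  have := LinearMap.finrank_le_finrank_of_injective (f := g) hf
  rw [Module.finrank_prod, Module.finrank_pi_fintype, h2] at this
  simp at this

end Pool.Agent.Work.MP_164b00_al
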