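import Pool.Agent.Work.MP_164b00_al.Topo

/-!
The model map, its positive Jacobian, and the conclusion of the degree argument.
-/

namespace Pool.Agent.Work.MP_164b00_al

open Pool.Agent.Lib.TorusDegree Complex
open scoped ContDiff Real ComplexConjugate

/-- The model map. -/
noncomputable def Md : Fin 6 → Per 5 :=
  ![(4 : ℝ) • ((cs 0 4 * cs 0 4 - sn 0 4 * sn 0 4) * cs 4 1), (-4 : ℝ) • sn 4 1,
    (-8 : ℝ) • (cs 1 4 * cs 2 4 * cs 3 4), (2 : ℝ) • sn 3 4,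
    (-8 : ℝ) • (sn 0 4 * cs 0 4 * sn 1 4), (-2 : ℝ) • sn 2 4]

theorem exp_four (t : ℝ) :
    exp (t * I) ^ 4 = (Real.cos (4 * t) : ℂ) + (Real.sin (4 * t) : ℂ) * I := by
  rw [← Complex.exp_nat_mul, ← mul_assoc, Complex.exp_mul_I]
  push_cast
  rfl

theorem vs_exp (t : ℝ) :
    vs (exp (t * I)) (conj (exp (t * I))) = 2 * (Real.sin (4 * t) : ℂ) * I := by
  rw [vs, ← map_pow, exp_four]
  simp only [map_add, map_mul, conj_ofReal, conj_I]
  ring

theorem kas_exp (t : ℝ) :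
    kas 1 (exp (t * I)) (conj (exp (t * I))) = 2 * (Real.cos (4 * t) : ℂ) := by
  have : kas 1 (exp (t * I)) (conj (exp (t * I))) =
      exp (t * I) ^ 4 + conj (exp (t * I) ^ 4) := by
    simp only [kas, ka, map_pow]
    ring
  rw [this, exp_four]
  simp only [map_add, map_mul, conj_ofReal, conj_I]
  ring

theorem zz_eq (y : Fin 6 → ℝ) : zz y = (Real.cos (y 5) : ℂ) + (Real.sin (y 5) : ℂ) * I := by
  rw [zz, Complex.exp_mul_I]
  push_cast
  rfl

theorem H2_one (y : Fin 6 → ℝ) (hy : y 0 = 1) (i : Fin 6) :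
    (vec cp_H2 i).1 y = (Md i).1 y := by
  have hv : ∀ i, vs (ex (th y) i) (ew (th y) i) = 2 * (Real.sin (4 * th y i) : ℂ) * I :=
    fun i => vs_exp _
  have hk : ∀ i, kas 1 (ex (th y) i) (ew (th y) i) = 2 * (Real.cos (4 * th y i) : ℂ) :=
    fun i => kas_exp _
  have t0 : th y 0 = y 1 := rfl
  have t1 : th y 1 = y 2 := rfl
  have t2 : th y 2 = y 3 := rfl
  have t3 : th y 3 = y 4 := rfl
  have a0 : H2 (y 0) (th y) (zz y) 0 =
      ((4 * ((Real.cos (4 * y 1) * Real.cos (4 * y 1) - Real.sin (4 * y 1) * Real.sin (4 * y 1)) *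
        Real.cos (y 5)) : ℝ) : ℂ) + ((-4 * Real.sin (y 5) : ℝ) : ℂ) * I := by
    have e : (Real.cos (4 * y 1) : ℂ) ^ 2 + (Real.sin (4 * y 1) : ℂ) ^ 2 = 1 := by
      exact_mod_cast Real.cos_sq_add_sin_sq (4 * y 1)
    simp only [H2, hy, ofReal_one, hv, hk, zz_eq, t0, Matrix.cons_val_zero, map_add, map_mul,
      conj_ofReal, conj_I, ofReal_mul, ofReal_sub, ofReal_neg, ofReal_ofNat]
    linear_combination (4 * (Real.sin (4 * y 1) : ℂ) ^ 2 *
      ((Real.cos (y 5) : ℂ) + (Real.sin (y 5) : ℂ) * I)) * I_mul_I - 4 * (Real.sin (y 5) : ℂ) * I * e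
  have a1 : H2 (y 0) (th y) (zz y) 1 =
      ((-8 * (Real.cos (4 * y 2) * Real.cos (4 * y 3) * Real.cos (4 * y 4)) : ℝ) : ℂ) +
        ((2 * Real.sin (4 * y 4) : ℝ) : ℂ) * I := by
    simp only [H2, F2s, hy, ofReal_one, hv, hk, t1, t2, t3, Matrix.cons_val_zero,
      Matrix.cons_val_one, map_add, map_mul, sub_self, zero_mul, map_one, map_zero,
      conj_ofReal, conj_I, ofReal_mul, ofReal_neg, ofReal_ofNat, map_ofNat]
    ring
  have a2 : H2 (y 0) (th y) (zz y) 2 =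
      ((-8 * (Real.sin (4 * y 1) * Real.cos (4 * y 1) * Real.sin (4 * y 2)) : ℝ) : ℂ) +
        ((-2 * Real.sin (4 * y 3) : ℝ) : ℂ) * I := by
    simp only [H2, F1s, hy, ofReal_one, hv, hk, t0, t1, t2, Matrix.cons_val,
      map_add, map_mul, sub_self, zero_mul, map_one, map_zero,
      conj_ofReal, conj_I, ofReal_mul, ofReal_neg, ofReal_ofNat, map_ofNat]
    linear_combination (8 * (Real.sin (4 * y 1) : ℂ) * (Real.cos (4 * y 1) : ℂ) *
      (Real.sin (4 * y 2) : ℂ)) * I_mul_I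
  have hre : ∀ a b : ℝ, ((a : ℂ) + (b : ℂ) * I).re = a := fun a b => by simp
  have him : ∀ a b : ℝ, ((a : ℂ) + (b : ℂ) * I).im = b := fun a b => by simp
  fin_cases i
  · change (H2 (y 0) (th y) (zz y) 0).re = _
    rw [a0, hre]
    simp [Md, cs, sn]
  · change (H2 (y 0) (th y) (zz y) 0).im = _
    rw [a0, him]
    simp [Md, cs, sn]
  · change (H2 (y 0) (th y) (zz y) 1).re = _
    rw [a1, hre]
    simp [Md, cs, sn]
  · change (H2 (y 0) (th y) (zz y) 1).im = _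
    rw [a1, him]
    simp [Md, cs, sn]
  · change (H2 (y 0) (th y) (zz y) 2).re = _
    rw [a2, hre]
    simp [Md, cs, sn]
  · change (H2 (y 0) (th y) (zz y) 2).im = _
    rw [a2, him]
    simp [Md, cs, sn]

theorem det_model (C S c1 s1 c2 s2 c3 s3 c4 s4 : ℝ) :
    Matrix.det !![4 * ((c1 * c1 - s1 * s1) * C), -64 * (c1 * s1 * C), 0, 0, 0,
        -4 * ((c1 * c1 - s1 * s1) * S);
      -4 * S, 0, 0, 0, 0, -4 * C;
      -8 * (c2 * c3 * c4), 0, 32 * (s2 * c3 * c4), 32 * (c2 * s3 * c4), 32 * (c2 * c3 * s4), 0;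
      2 * s4, 0, 0, 0, 8 * c4, 0;
      -8 * (s1 * c1 * s2), -32 * ((c1 * c1 - s1 * s1) * s2), -32 * (s1 * c1 * c2), 0, 0, 0;
      -2 * s3, 0, 0, -8 * c3, 0, 0] =
    2 ^ 20 * ((2 * s1 * c1 * C * c2) ^ 2 * ((c3 * c4) ^ 2 + (s3 * c4) ^ 2 + (c3 * s4) ^ 2) +
      (s2 * c3 * c4) ^ 2 * ((c1 * c1 - s1 * s1) ^ 2 * (C ^ 2 + S ^ 2) + (2 * s1 * c1 * C) ^ 2)) := by
  simp [Matrix.det_succ_row_zero, Fin.sum_univ_succ, Fin.succAbove]
  ring

theorem G_Md (y : Fin 6 → ℝ) : (G Md 0).1 y =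
    2 ^ 20 * ((2 * Real.sin (4 * y 1) * Real.cos (4 * y 1) * Real.cos (y 5) *
      Real.cos (4 * y 2)) ^ 2 * ((Real.cos (4 * y 3) * Real.cos (4 * y 4)) ^ 2 +
        (Real.sin (4 * y 3) * Real.cos (4 * y 4)) ^ 2 +
        (Real.cos (4 * y 3) * Real.sin (4 * y 4)) ^ 2) +
      (Real.sin (4 * y 2) * Real.cos (4 * y 3) * Real.cos (4 * y 4)) ^ 2 *
        ((Real.cos (4 * y 1) * Real.cos (4 * y 1) - Real.sin (4 * y 1) * Real.sin (4 * y 1)) ^ 2 *
          (Real.cos (y 5) ^ 2 + Real.sin (y 5) ^ 2) +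
        (2 * Real.sin (4 * y 1) * Real.cos (4 * y 1) * Real.cos (y 5)) ^ 2)) := by
  rw [G_apply, ← det_model]
  congr 1
  have hc : ∀ (j : Fin 5) (k : ℕ), (cs j k).1 y = Real.cos (k * y j.succ) := fun _ _ => rfl
  have hs : ∀ (j : Fin 5) (k : ℕ), (sn j k).1 y = Real.sin (k * y j.succ) := fun _ _ => rfl
  have hm : ∀ f g : Per 5, (f * g).1 y = f.1 y * g.1 y := fun _ _ => rfl
  have ha : ∀ f g : Per 5, (f + g).1 y = f.1 y + g.1 y := fun _ _ => rfl
  have hb : ∀ f g : Per 5, (f - g).1 y = f.1 y - g.1 y := fun _ _ => rfl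
  have hd : ∀ (c : ℝ) (f : Per 5), (c • f).1 y = c * f.1 y := fun _ _ => rfl
  have hD : ∀ (j : Fin 5) (i : Fin 6), (D j.succ (Md i)).1 y =
      (![-64 * (Real.cos (4 * y 1) * Real.sin (4 * y 1) * Real.cos (y 5)) * (if 0 = j then 1 else 0)
          - 4 * ((Real.cos (4 * y 1) * Real.cos (4 * y 1) - Real.sin (4 * y 1) * Real.sin (4 * y 1))
            * Real.sin (y 5)) * (if 4 = j then 1 else 0),
        -4 * Real.cos (y 5) * (if 4 = j then 1 else 0),
        32 * (Real.sin (4 * y 2) * Real.cos (4 * y 3) * Real.cos (4 * y 4)) *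
            (if 1 = j then 1 else 0) +
          32 * (Real.cos (4 * y 2) * Real.sin (4 * y 3) * Real.cos (4 * y 4)) *
            (if 2 = j then 1 else 0) +
          32 * (Real.cos (4 * y 2) * Real.cos (4 * y 3) * Real.sin (4 * y 4)) *
            (if 3 = j then 1 else 0),
        8 * Real.cos (4 * y 4) * (if 3 = j then 1 else 0),
        -32 * ((Real.cos (4 * y 1) * Real.cos (4 * y 1) - Real.sin (4 * y 1) * Real.sin (4 * y 1))
            * Real.sin (4 * y 2)) * (if 0 = j then 1 else 0) +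
          -32 * (Real.sin (4 * y 1) * Real.cos (4 * y 1) * Real.cos (4 * y 2)) *
            (if 1 = j then 1 else 0),
        -8 * Real.cos (4 * y 3) * (if 2 = j then 1 else 0)] : Fin 6 → ℝ) i := by
    intro j i
    fin_cases i <;>
      simp only [Md, Fin.zero_eta, Fin.mk_one, Fin.reduceFinMk, Matrix.cons_val_zero,
        Matrix.cons_val_one, Matrix.cons_val, D_smul, D_mul, map_sub, hc, hs, hm, ha, hb, hd,
        D_cs, D_sn] <;>
      fin_cases j <;> simp <;> ring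
  ext i k
  refine Fin.cases ?_ (fun k => ?_) k
  · fin_cases i <;> simp [Md, cs, sn]
  · simp only [Matrix.of_apply, Fin.cons_succ, hD]
    fin_cases i <;> fin_cases k <;> simp

theorem deg_Md : 0 < deg 3 (vec cp_H2) 1 := by
  rw [deg_slice 3 (vec cp_H2) Md 1 fun i y hy => H2_one y hy i]
  have hp := Real.pi_pos
  refine deg_pos 3 Md 1 ?_ ?_ ![π / 2, π / 8, π / 2, π / 2, π] ?_ ?_
  · intro y hy
    obtain ⟨i, hi⟩ := vec_ne cp_H2 y (H2_ne (by rw [hy]; norm_num) hy.le _ (exp_mul_conj _))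
    exact ⟨i, by rwa [← H2_one y hy]⟩
  · intro y _
    rw [G_Md]
    positivity
  · intro i
    fin_cases i <;> simp <;> (try constructor) <;> linarith
  · rw [G_Md]
    have e1 : 4 * (π / 2) = 2 * π := by ring
    have e2 : 4 * (π / 8) = π / 2 := by ring
    have y1 : (Fin.cons 1 ![π / 2, π / 8, π / 2, π / 2, π] : Fin 6 → ℝ) 1 = π / 2 := rfl
    have y2 : (Fin.cons 1 ![π / 2, π / 8, π / 2, π / 2, π] : Fin 6 → ℝ) 2 = π / 8 := rfl
    have y3 : (Fin.cons 1 ![π / 2, π / 8, π / 2, π / 2, π] : Fin 6 → ℝ) 3 = π / 2 := rfl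
    have y4 : (Fin.cons 1 ![π / 2, π / 8, π / 2, π / 2, π] : Fin 6 → ℝ) 4 = π / 2 := rfl
    have y5 : (Fin.cons 1 ![π / 2, π / 8, π / 2, π / 2, π] : Fin 6 → ℝ) 5 = π := rfl
    rw [y1, y2, y3, y4, y5, e1, e2]
    simp

/-- There is no smooth periodic `γ` staying off the image of the row. -/
theorem topo (γ : Fin 3 → (Fin 4 → ℝ) → ℂ) (hγ : ∀ i, CP fun y => γ i (th y))
    (h : ∀ (s : ℝ) θ z, z ≠ 0 → ¬ ∀ i, (1 - s) * Psi θ z i + s * γ i θ = 0) : False := by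
  have c1 : ∀ i, CP fun y => (1 - y 0) * Psi (th y) (zz y) i + y 0 * γ i (th y) := fun i =>
    (((CP.const 1).sub CP.level).mul (cp_Psi i)).add (CP.level.mul (hγ i))
  have e1 := homotopy 2 rfl (vec c1) fun y _ _ =>
    vec_ne c1 y (h _ _ _ (Complex.exp_ne_zero _))
  have e2 := homotopy 2 rfl (vec cp_H2) fun y h0 h1 =>
    vec_ne cp_H2 y (H2_ne h0 h1 _ (exp_mul_conj _))
  have e3 : deg 3 (vec c1) 0 = deg 3 (vec cp_H2) 0 :=
    deg_slice 3 _ _ 0 fun i y hy => vec_congr _ _ (fun i => by simp [hy, H2_zero]) i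
  have e4 : deg 3 (vec c1) 1 = deg 3 (vec hγ) 1 :=
    deg_slice 3 _ _ 1 fun i y hy => vec_congr _ _ (fun i => by simp [hy]) i
  have e5 : deg 3 (vec hγ) 1 = 0 := by
    refine deg_eq_zero 3 _ 1 (Fin.last 4) fun i y t => vec_congr _ _ (fun i => ?_) i
    congr 1
    ext l
    fin_cases l <;> simp [th]
  have := deg_Md
  simp only [Nat.reduceAdd] at e1 e2
  linarith

end Pool.Agent.Work.MP_164b00_al
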