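import Pool.Agent.Work.MP_164b00_al.Group
import Pool.Agent.Work.MP_164b00_al.Model
import Mathlib.Algebra.MonoidAlgebra.Lift

/-!
The family of two dimensional real representations and the main theorem.
-/

namespace Pool.Agent.Work.MP_164b00_al

open Multiplicative Complex
open scoped ComplexConjugate

/-- The unitary character of the lattice with angles `θ`. -/
noncomputable def chi (θ : Fin 4 → ℝ) (m : Lat) : ℂ := exp ((∑ i, m.toAdd i * θ i : ℝ) * I)

theorem chi_one (θ : Fin 4 → ℝ) : chi θ 1 = 1 := by simp [chi]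

theorem chi_mul (θ : Fin 4 → ℝ) (a b : Lat) : chi θ (a * b) = chi θ a * chi θ b := by
  simp [chi, ← Complex.exp_add, add_mul, Finset.sum_add_distrib]

theorem chi_inv (θ : Fin 4 → ℝ) (a : Lat) : chi θ a⁻¹ = conj (chi θ a) := by
  simp [chi, ← Complex.exp_conj]

/-- Complex conjugation to the power `j`. -/
noncomputable def cj (j : Multiplicative ℤ) : ℂ →ₐ[ℝ] ℂ :=
  if Even j.toAdd then AlgHom.id ℝ ℂ else (Complex.conjAe : ℂ →ₐ[ℝ] ℂ)

theorem cj_even {j : Multiplicative ℤ} (h : Even j.toAdd) (z : ℂ) : cj j z = z := by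
  simp [cj, h]

theorem cj_odd {j : Multiplicative ℤ} (h : ¬ Even j.toAdd) (z : ℂ) : cj j z = conj z := by
  simp [cj, h]

theorem cj_mul (a b : Multiplicative ℤ) (z : ℂ) : cj (a * b) z = cj a (cj b z) := by
  by_cases ha : Even a.toAdd <;> by_cases hb : Even b.toAdd
  · rw [cj_even (by simp [Int.even_add, ha, hb]), cj_even ha, cj_even hb]
  · rw [cj_odd (by simp [Int.even_add, ha, hb]), cj_even ha, cj_odd hb]
  · rw [cj_odd (by simp [Int.even_add, ha, hb]), cj_odd ha, cj_even hb]
  · rw [cj_even (by rw [toAdd_mul, Int.even_add]; exact iff_of_false ha hb), cj_odd ha, cj_odd hb,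
      conj_conj]

theorem chi_act (θ : Fin 4 → ℝ) (j : Multiplicative ℤ) (a : Lat) :
    chi θ (act j a) = cj j (chi θ a) := by
  by_cases h : Even j.toAdd
  · rw [act_even h, cj_even h, MulAut.one_apply]
  · rw [act_odd h, cj_odd h, chi_inv]

/-- The representation of the group on the real plane. -/
noncomputable def rep (θ : Fin 4 → ℝ) : Grp →* Module.End ℝ ℂ where
  toFun g := (LinearMap.mulLeft ℝ (chi θ g.left)).comp (cj g.right).toLinearMap
  map_one' := by
    refine LinearMap.ext fun z => ?_
    simp [chi_one, cj_even]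
  map_mul' a b := by
    refine LinearMap.ext fun z => ?_
    simp [chi_mul, chi_act, cj_mul]

theorem rep_apply (θ : Fin 4 → ℝ) (g : Grp) (z : ℂ) : rep θ g z = chi θ g.left * cj g.right z :=
  rfl

variable {k : Type} [CommRing k] (φ : k →+* ℝ)

/-- The representation of the group ring. -/
noncomputable def Rep (θ : Fin 4 → ℝ) : MonoidAlgebra k Grp →+* Module.End ℝ ℂ :=
  MonoidAlgebra.liftNCRingHom ((algebraMap ℝ (Module.End ℝ ℂ)).comp φ) (rep θ)
    fun x y => Algebra.commutes (φ x) (rep θ y)

theorem Rep_single (θ : Fin 4 → ℝ) (g : Grp) (a : k) (z : ℂ) :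
    Rep φ θ (MonoidAlgebra.single g a) z = φ a * (chi θ g.left * cj g.right z) := by
  have : Rep φ θ (MonoidAlgebra.single g a) = algebraMap ℝ (Module.End ℝ ℂ) (φ a) * rep θ g :=
    MonoidAlgebra.liftNCRingHom_single _ _ _ _ _
  simp [this, rep_apply]

/-- The character of the abelian subgroup. -/
noncomputable def chiAb (θ : Fin 4 → ℝ) : Ab →* ℂ where
  toFun h := chi θ h.1
  map_one' := chi_one θ
  map_mul' a b := chi_mul θ a.1 b.1

/-- Evaluation of the commutative group ring. -/
noncomputable def Ev (θ : Fin 4 → ℝ) : MonoidAlgebra k Ab →+* ℂ :=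
  MonoidAlgebra.liftNCRingHom (Complex.ofRealHom.comp φ) (chiAb θ) fun _ _ => Commute.all _ _

theorem Ev_single (θ : Fin 4 → ℝ) (h : Ab) (a : k) :
    Ev φ θ (MonoidAlgebra.single h a) = φ a * chi θ h.1 := by
  simp [Ev, MonoidAlgebra.liftNCRingHom_single, chiAb]

theorem Rep_iota (θ : Fin 4 → ℝ) (r : MonoidAlgebra k Ab) (z : ℂ) :
    Rep φ θ (iota k r) z = Ev φ θ r * z := by
  induction r using MonoidAlgebra.induction_linear with
  | zero => simp
  | add a b ha hb => simp [add_mul, ha, hb]
  | single h a =>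
    rw [iota_single, Rep_single, Ev_single, cj_even (by simp), inc_left, mul_assoc]

theorem Rep_bb (θ : Fin 4 → ℝ) (z : ℂ) : Rep φ θ (bb k) z = conj z := by
  rw [bb, Rep_single, cj_odd (by simp [gen])]
  simp [gen, chi_one]

variable (k) in
/-- The generators of the lattice. -/
noncomputable def xx (i : Fin 4) : MonoidAlgebra k Ab :=
  MonoidAlgebra.single (ofAdd (Pi.single i 1), 1) 1

variable (k) in
/-- Their inverses. -/
noncomputable def ww (i : Fin 4) : MonoidAlgebra k Ab :=
  MonoidAlgebra.single ((ofAdd (Pi.single i 1))⁻¹, 1) 1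

theorem chi_single (θ : Fin 4 → ℝ) (i : Fin 4) : chi θ (ofAdd (Pi.single i 1)) = ex θ i := by
  have : ∑ l, ((Pi.single i 1 : Fin 4 → ℤ) l : ℝ) * θ l = θ i := by
    rw [Finset.sum_eq_single i] <;> simp +contextual
  simp only [chi, ex, toAdd_ofAdd, this]

theorem Ev_xx (θ : Fin 4 → ℝ) (i : Fin 4) : Ev φ θ (xx k i) = ex θ i := by
  simp [xx, Ev_single, chi_single]

theorem Ev_ww (θ : Fin 4 → ℝ) (i : Fin 4) : Ev φ θ (ww k i) = ew θ i := by
  rw [ww, Ev_single, chi_inv, chi_single]
  simp [ex, ew]

variable (k) in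
/-- The unimodular row. -/
noncomputable def rho : Fin 3 → MonoidAlgebra k Grp :=
  ![iota k (vs (xx k 0) (ww k 0) ^ 2) + iota k (ka (xx k 0) (ww k 0) ^ 2) * bb k,
    iota k (F1 (xx k) (ww k)), iota k (F2 (xx k) (ww k))]

theorem Rep_rho (θ : Fin 4 → ℝ) (z : ℂ) (i : Fin 3) : Rep φ θ (rho k i) z = Psi θ z i := by
  fin_cases i
  · simp only [rho, Psi, Fin.zero_eta, Matrix.cons_val_zero, map_add, map_mul,
      LinearMap.add_apply, Module.End.mul_apply, Rep_iota, Rep_bb]
    simp only [map_pow, map_vs, map_ka, Ev_xx, Ev_ww]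
  · simp only [rho, Psi, Fin.mk_one, Matrix.cons_val_one, Matrix.cons_val_zero, Rep_iota,
      map_F1, Ev_xx, Ev_ww]
  · simp only [rho, Psi, Fin.reduceFinMk, Matrix.cons_val, Rep_iota, map_F2, Ev_xx, Ev_ww]

theorem cp_chi (m : Lat) : CP fun y => chi (th y) m := by
  constructor
  · simp only [chi, th]
    have : ContDiff ℝ (⊤ : ℕ∞) fun y : Fin 6 → ℝ => ∑ i : Fin 4, (m.toAdd i : ℝ) * y i.castSucc.succ :=
      ContDiff.sum fun i _ => by fun_prop
    exact ((Complex.ofRealCLM.contDiff.comp this).mul contDiff_const).cexp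
  · intro i y
    simp only [chi, th, Pi.add_apply, mul_add, Finset.sum_add_distrib, ofReal_add, add_mul,
      Complex.exp_add]
    rw [mul_eq_left₀ (Complex.exp_ne_zero _)]
    refine Fin.lastCases ?_ (fun i => ?_) i
    · simp [Fin.sum_univ_four]
    · rw [Finset.sum_eq_single i]
      · simp only [Pi.single_eq_same]
        push_cast
        rw [mul_assoc]
        exact Complex.exp_int_mul_two_pi_mul_I _
      · intro b _ hb
        simp [hb]
      · simp

theorem cp_Rep (c : MonoidAlgebra k Grp) : CP fun y => Rep φ (th y) c 1 := by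
  induction c using MonoidAlgebra.induction_linear with
  | zero => simpa using CP.const 0
  | add a b ha hb => simpa using ha.add hb
  | single g a => simpa [Rep_single] using (CP.const (φ a)).mul (cp_chi g.left)

theorem exists_left_inverse : ∃ r : Fin 3 → MonoidAlgebra k Grp, ∑ i, r i * rho k i = 1 := by
  let J : Ideal (MonoidAlgebra k Grp) :=
    LinearMap.range (Fintype.linearCombination (MonoidAlgebra k Grp) (rho k))
  have hJ : ∀ i, rho k i ∈ J := fun i => ⟨Pi.single i 1, by simp⟩
  have := unimod (iota k) (sig k) (bb k) (MonoidAlgebra.single gen⁻¹ 1)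
    (by simp [bb, MonoidAlgebra.single_mul_single, MonoidAlgebra.one_def]) sig_sig bb_mul
    (xx k) (ww k) (fun i => by simp [xx, ww, MonoidAlgebra.single_mul_single,
      MonoidAlgebra.one_def, Prod.one_eq_mk]) (fun i => by simp [xx, ww, flip]) J (hJ 0) (hJ 1) (hJ 2)
  obtain ⟨r, hr⟩ := this
  exact ⟨r, by simpa [Fintype.linearCombination_apply] using hr⟩

include φ in
theorem no_completion (a c : Fin 3 → MonoidAlgebra k Grp) (h0 : ∑ i, a i * rho k i = 0)
    (h1 : ∑ i, a i * c i = 1) : False := by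
  obtain ⟨r, hr⟩ := exists_left_inverse (k := k)
  refine topo (fun i θ => Rep φ θ (c i) 1) (fun i => cp_Rep φ (c i)) fun s θ z hz h => ?_
  have key : ∀ u : Fin 3 → MonoidAlgebra k Grp,
      (1 - s) • Rep φ θ (∑ i, u i * rho k i) z + s • Rep φ θ (∑ i, u i * c i) 1 = 0 := by
    intro u
    simp only [map_sum, map_mul, LinearMap.sum_apply, Module.End.mul_apply, Finset.smul_sum,
      ← Finset.sum_add_distrib]
    refine Finset.sum_eq_zero fun i _ => ?_
    have := h i
    rw [← Rep_rho φ] at this
    have e : (1 - s) • Rep φ θ (rho k i) z + s • Rep φ θ (c i) 1 = 0 := by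
      simpa using this
    rw [← map_smul, ← map_smul (Rep φ θ (u i)), ← map_add, e, map_zero]
  have s0 : s = 0 := by simpa [h0, h1] using key a
  apply hz
  simpa [s0, hr] using key r

variable (k) in
/-- The stably free module. -/
noncomputable def PP : Submodule (MonoidAlgebra k Grp) (Fin 3 → MonoidAlgebra k Grp) :=
  LinearMap.ker (Fintype.linearCombination (MonoidAlgebra k Grp) (rho k))

theorem exists_equiv : ∃ e : (Fin 3 → MonoidAlgebra k Grp) ≃ₗ[MonoidAlgebra k Grp]
    PP k × MonoidAlgebra k Grp, ∀ p : PP k, e p.1 = (p, 0) := by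
  obtain ⟨r, hr⟩ := exists_left_inverse (k := k)
  set L := Fintype.linearCombination (MonoidAlgebra k Grp) (rho k) with hL
  have hLr : L r = 1 := by simpa [hL, Fintype.linearCombination_apply] using hr
  let π : (Fin 3 → MonoidAlgebra k Grp) →ₗ[MonoidAlgebra k Grp] PP k :=
    (LinearMap.id - (LinearMap.toSpanSingleton _ _ r).comp L).codRestrict (PP k) fun v => by
      change L _ = 0
      simp [hLr]
  have hπ : ∀ v, (π v).1 = v - L v • r := fun v => rfl
  refine ⟨LinearEquiv.ofBijective (π.prod L) ⟨?_, ?_⟩, fun p => ?_⟩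
  · rw [injective_iff_map_eq_zero]
    intro v hv
    have h1 : π v = 0 := congrArg Prod.fst hv
    have h2 : L v = 0 := congrArg Prod.snd hv
    have := hπ v
    rw [h1, h2] at this
    simpa using this.symm
  · rintro ⟨p, a⟩
    have hp : L p.1 = 0 := p.2
    refine ⟨p.1 + a • r, Prod.ext (Subtype.ext ?_) ?_⟩
    · change (π _).1 = _
      simp [hπ, hp, hLr]
    · change L _ = _
      simp [hp, hLr]
  · have hp : L p.1 = 0 := p.2
    refine Prod.ext (Subtype.ext ?_) hp
    change (π _).1 = _
    simp [hπ, hp]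

universe u

include φ in
theorem main : Nonempty ((PP k × MonoidAlgebra k Grp) ≃ₗ[MonoidAlgebra k Grp]
      (Fin 3 → MonoidAlgebra k Grp)) ∧
    Module.Finite (MonoidAlgebra k Grp) (PP k) ∧
    Module.Projective (MonoidAlgebra k Grp) (PP k) ∧
    ¬ IsFreePlusIdeal.{u} (MonoidAlgebra k Grp) (PP k) := by
  obtain ⟨e, he⟩ := exists_equiv (k := k)
  have : Nontrivial k := φ.domain_nontrivial
  refine ⟨⟨e.symm⟩, ?_, ?_, ?_⟩
  · exact Module.Finite.of_surjective ((LinearMap.fst _ _ _).comp e.toLinearMap)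
      (Prod.fst_surjective.comp e.surjective)
  · refine Module.Projective.of_split (PP k).subtype ((LinearMap.fst _ _ _).comp e.toLinearMap) ?_
    ext1 p
    simp [he]
  · rintro ⟨F, _, _, _, J, ⟨f⟩⟩
    let B := Module.Free.chooseBasis (MonoidAlgebra k Grp) F
    rcases isEmpty_or_nonempty (Module.Free.ChooseBasisIndex (MonoidAlgebra k Grp) F) with hE | hE
    · have : Subsingleton F := B.repr.toEquiv.subsingleton
      refine no_injective (((J.subtype.comp ((LinearMap.snd _ _ _).comp f.toLinearMap)).prodMap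
        LinearMap.id).comp e.toLinearMap) ?_
      simp only [LinearMap.coe_comp, LinearEquiv.coe_coe, LinearMap.coe_prodMap]
      refine Function.Injective.comp (Function.Injective.prodMap ?_ Function.injective_id)
        e.injective
      refine J.injective_subtype.comp (Function.Injective.comp ?_ f.injective)
      intro a b h
      exact Prod.ext (Subsingleton.elim _ _) h
    · obtain ⟨j⟩ := hE
      let a : PP k := f.symm (B j, 0)
      let ψ : (Fin 3 → MonoidAlgebra k Grp) →ₗ[MonoidAlgebra k Grp] MonoidAlgebra k Grp :=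
        (B.coord j).comp ((LinearMap.fst _ _ _).comp (f.toLinearMap.comp
          ((LinearMap.fst _ _ _).comp e.toLinearMap)))
      have hψ : ψ a.1 = 1 := by simp [ψ, he, a]
      refine no_completion φ a.1 (fun i => ψ (Pi.single i 1)) ?_ ?_
      · have ha : Fintype.linearCombination (MonoidAlgebra k Grp) (rho k) a.1 = 0 := a.2
        rw [Fintype.linearCombination_apply] at ha
        exact ha
      · rw [pi_eq_sum_univ' a.1, map_sum] at hψ
        simpa using hψ

end Pool.Agent.Work.MP_164b00_al
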