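import Mathlib.RingTheory.Ideal.Operations
import Mathlib.RingTheory.Ideal.Quotient.Basic
import Mathlib.RingTheory.Ideal.Maximal
import Mathlib.RingTheory.Coprime.Lemmas
import Mathlib.Tactic.LinearCombination
import Mathlib.Tactic.NoncommRing

/-!
The explicit row and its unimodularity.
-/

namespace Pool.Agent.Work.MP_164b00_al

section Poly

variable {R : Type*} [CommRing R]

/-- `x^4 - x^(-4)`. -/
def vs (x w : R) : R := x ^ 4 - w ^ 4

/-- `x^(-4)` times the 15th cyclotomic polynomial. -/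
def ka (x w : R) : R := x ^ 4 - x ^ 3 + x - 1 + w - w ^ 3 + w ^ 4

/-- Second entry of the row. -/
def F1 (x w : Fin 4 → R) : R :=
  (1 + x 1) * (vs (x 0) (w 0) * ka (x 0) (w 0) * vs (x 1) (w 1)) + vs (x 2) (w 2)

/-- Third entry of the row. -/
def F2 (x w : Fin 4 → R) : R :=
  (1 + x 0) * (ka (x 1) (w 1) * ka (x 2) (w 2) * ka (x 3) (w 3)) + vs (x 3) (w 3)

theorem map_vs {S : Type*} [CommRing S] (f : R →+* S) (x w : R) :
    f (vs x w) = vs (f x) (f w) := by simp [vs]

theorem map_ka {S : Type*} [CommRing S] (f : R →+* S) (x w : R) :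
    f (ka x w) = ka (f x) (f w) := by simp [ka]

theorem map_F1 {S : Type*} [CommRing S] (f : R →+* S) (x w : Fin 4 → R) :
    f (F1 x w) = F1 (fun i => f (x i)) (fun i => f (w i)) := by simp [F1, map_vs, map_ka]

theorem map_F2 {S : Type*} [CommRing S] (f : R →+* S) (x w : Fin 4 → R) :
    f (F2 x w) = F2 (fun i => f (x i)) (fun i => f (w i)) := by simp [F2, map_vs, map_ka]

theorem vs_swap (x w : R) : vs w x = -vs x w := by simp [vs]

theorem ka_swap (x w : R) : ka w x = ka x w := by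
  simp only [ka]
  ring

theorem coprime_vs_ka {x w : R} (h : x * w = 1) : IsCoprime (vs x w) (ka x w) := by
  refine ⟨(1 - x - x ^ 2 + x ^ 3 - x ^ 4 + x ^ 5 + x ^ 6 - x ^ 7) * x ^ 4,
    (2 + x - x ^ 3 - x ^ 4 - x ^ 5 + x ^ 7) * x ^ 4, ?_⟩
  have h1 : x ^ 4 * vs x w = x ^ 8 - 1 := by
    have : x ^ 4 * w ^ 4 = 1 := by rw [← mul_pow, h, one_pow]
    simp only [vs]
    linear_combination (-1 : R) * this
  have h2 : x ^ 4 * ka x w = x ^ 8 - x ^ 7 + x ^ 5 - x ^ 4 + x ^ 3 - x + 1 := by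
    have e4 : x ^ 4 * w ^ 4 = 1 := by rw [← mul_pow, h, one_pow]
    have e3 : x ^ 3 * w ^ 3 = 1 := by rw [← mul_pow, h, one_pow]
    simp only [ka]
    linear_combination e4 - x * e3 + x ^ 3 * h
  rw [mul_assoc, mul_assoc, h1, h2]
  ring

theorem vs_eq_zero [IsDomain R] {x w : R} (h : x * w = 1) (h2 : 2 + x + w = 0) : vs x w = 0 := by
  have : (x + 1) ^ 2 = 0 := by linear_combination x * h2 - h
  have hx : x = -1 := by
    have := pow_eq_zero_iff (two_ne_zero) |>.1 this
    linear_combination this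
  have hw : w = -1 := by
    subst hx
    linear_combination -h
  subst hx hw
  simp [vs]

theorem not_both [Nontrivial R] {x w : R} (h : x * w = 1) (h1 : vs x w = 0) (h2 : ka x w = 0) :
    False := by
  obtain ⟨a, b, e⟩ := coprime_vs_ka h
  simp [h1, h2] at e

theorem core [IsDomain R] {x w : Fin 4 → R} (h : ∀ i, x i * w i = 1) (h1 : F1 x w = 0)
    (h1' : F1 w x = 0) (h2 : F2 x w = 0) (h2' : F2 w x = 0) :
    vs (x 0) (w 0) * ka (x 0) (w 0) = 0 := by
  by_contra h0
  simp only [F1, F2, vs_swap (x _) (w _), ka_swap (x _) (w _)] at h1 h1' h2 h2'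
  have e1 : (2 + x 1 + w 1) * ((vs (x 0) (w 0) * ka (x 0) (w 0)) * vs (x 1) (w 1)) = 0 := by
    linear_combination h1 + h1'
  have v1 : vs (x 1) (w 1) = 0 := by
    rcases mul_eq_zero.1 e1 with e | e
    · exact vs_eq_zero (h 1) e
    · exact (mul_eq_zero.1 e).resolve_left h0
  have v2 : vs (x 2) (w 2) = 0 := by
    rw [v1] at h1
    linear_combination h1
  have e2 : (2 + x 0 + w 0) * (ka (x 1) (w 1) * ka (x 2) (w 2) * ka (x 3) (w 3)) = 0 := by
    linear_combination h2 + h2'
  rcases mul_eq_zero.1 e2 with e | e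
  · exact h0 (by rw [vs_eq_zero (h 0) e, zero_mul])
  · have v3 : vs (x 3) (w 3) = 0 := by
      rw [e] at h2
      linear_combination h2
    rcases mul_eq_zero.1 e with e | e
    · rcases mul_eq_zero.1 e with e | e
      · exact not_both (h 1) v1 e
      · exact not_both (h 2) v2 e
    · exact not_both (h 3) v3 e

end Poly

theorem unimod {S A : Type*} [CommRing S] [Ring A] (ι : S →+* A) (σ : S →+* S) (b c : A)
    (hcb : c * b = 1) (hσ : ∀ r, σ (σ r) = r) (hb : ∀ r, b * ι r = ι (σ r) * b)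
    (x w : Fin 4 → S) (h : ∀ i, x i * w i = 1) (hx : ∀ i, σ (x i) = w i)
    (J : Ideal A) (hn : ι (vs (x 0) (w 0) ^ 2) + ι (ka (x 0) (w 0) ^ 2) * b ∈ J)
    (h1 : ι (F1 x w) ∈ J) (h2 : ι (F2 x w) ∈ J) : (1 : A) ∈ J := by
  set p := vs (x 0) (w 0) ^ 2 with hp
  set q := ka (x 0) (w 0) ^ 2 with hq
  have hw : ∀ i, σ (w i) = x i := fun i => by rw [← hx, hσ]
  have hσp : σ p = p := by simp [hp, map_vs, hx, hw, vs_swap (x 0) (w 0)]
  have hσq : σ q = q := by simp [hq, map_ka, hx, hw, ka_swap (x 0) (w 0)]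
  have hpq : IsCoprime p q := (coprime_vs_ka (h 0)).pow
  let K : Ideal S :=
    { carrier := {r | ι r ∈ J}
      add_mem' := fun {a b} ha hb => by simpa using J.add_mem ha hb
      zero_mem' := by simp
      smul_mem' := fun r a ha => by simpa using J.mul_mem_left (ι r) ha }
  have hK : ∀ r, r ∈ K ↔ ι r ∈ J := fun r => Iff.rfl
  have hcomm : ∀ r s, ι r * ι s = ι s * ι r := fun r s => by rw [← map_mul, mul_comm, map_mul]
  have hc : ∀ r, c * ι r * b = ι (σ r) := fun r => by
    have := hb (σ r)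
    rw [hσ] at this
    rw [mul_assoc, ← this, ← mul_assoc, hcb, one_mul]
  have s1 : ∀ r ∈ K, σ r * p ∈ K := by
    intro r hr
    have e : ι (σ r * p) = ι (σ r) * (ι p + ι q * b) - ι q * (b * ι r) := by
      rw [hb, map_mul, mul_add, ← mul_assoc, ← mul_assoc, hcomm q]
      abel
    rw [hK, e]
    exact J.sub_mem (J.mul_mem_left _ hn) (J.mul_mem_left _ (J.mul_mem_left _ hr))
  have s2 : ∀ r ∈ K, σ r * q ∈ K := by
    intro r hr
    have e : ι (σ r * q) = c * ι r * (ι p + ι q * b) - c * ι p * ι r := by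
      have e1 : c * ι r * (ι q * b) = c * ι (r * q) * b := by
        rw [map_mul]
        noncomm_ring
      rw [mul_add, e1, hc, map_mul σ, hσq, mul_assoc c, mul_assoc c, hcomm p]
      abel
    rw [hK, e]
    exact J.sub_mem (J.mul_mem_left _ hn) (J.mul_mem_left _ hr)
  have s3 : ∀ r ∈ K, σ r ∈ K := by
    intro r hr
    obtain ⟨u, v, e⟩ := hpq
    have : σ r = u * (σ r * p) + v * (σ r * q) := by linear_combination (-σ r) * e
    rw [this]
    exact K.add_mem (K.mul_mem_left _ (s1 r hr)) (K.mul_mem_left _ (s2 r hr))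
  have s4 : ∀ r, r * q ∈ K → r * p ∈ K := by
    intro r hr
    have e : ι (r * p) = ι r * (ι p + ι q * b) - b * ι (σ (r * q)) := by
      rw [hb, hσ, map_mul, map_mul, mul_add, mul_assoc]
      abel
    rw [hK, e]
    exact J.sub_mem (J.mul_mem_left _ hn) (J.mul_mem_left _ (s3 _ hr))
  have s5 : ∀ r, r * p ∈ K → r * q ∈ K := by
    intro r hr
    have e : ι (σ (r * q)) = c * ι r * (ι p + ι q * b) - c * ι (r * p) := by
      rw [← hc, map_mul, map_mul]
      noncomm_ring
    have : σ (r * q) ∈ K := by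
      rw [hK, e]
      exact J.sub_mem (J.mul_mem_left _ hn) (J.mul_mem_left _ hr)
    simpa only [hσ] using s3 _ this
  have s6 : ∀ (p q : S), (∀ r, r * q ∈ K → r * p ∈ K) → ∀ (N : ℕ) r, r * q ^ N ∈ K →
      r * p ^ N ∈ K := by
    intro p q hh N
    induction N with
    | zero => simp
    | succ N ih =>
      intro r hr
      have := ih (r * q) (by rwa [mul_assoc, ← pow_succ'])
      have := hh (r * p ^ N) (by rwa [mul_right_comm])
      rwa [mul_assoc, ← pow_succ] at this
  have rad : vs (x 0) (w 0) * ka (x 0) (w 0) ∈ K.radical := by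
    rw [Ideal.radical_eq_sInf, Submodule.mem_sInf]
    rintro P ⟨hP, hprime⟩
    have k1 : F1 x w ∈ K := h1
    have k2 : F2 x w ∈ K := h2
    have k1' := s3 _ k1
    have k2' := s3 _ k2
    simp only [map_F1, map_F2, hx, hw] at k1' k2'
    rw [← Ideal.Quotient.eq_zero_iff_mem, map_mul, map_vs, map_ka]
    refine core (x := fun i => Ideal.Quotient.mk P (x i)) (w := fun i => Ideal.Quotient.mk P (w i))
      (fun i => by rw [← map_mul, h, map_one]) ?_ ?_ ?_ ?_
    · rw [← map_F1, Ideal.Quotient.eq_zero_iff_mem]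
      exact hP k1
    · rw [← map_F1, Ideal.Quotient.eq_zero_iff_mem]
      exact hP k1'
    · rw [← map_F2, Ideal.Quotient.eq_zero_iff_mem]
      exact hP k2
    · rw [← map_F2, Ideal.Quotient.eq_zero_iff_mem]
      exact hP k2'
  obtain ⟨N, hN⟩ := rad
  have hN' : p ^ N * q ^ N ∈ K := by
    have : p ^ N * q ^ N = (vs (x 0) (w 0) * ka (x 0) (w 0)) ^ N *
        (vs (x 0) (w 0) * ka (x 0) (w 0)) ^ N := by
      rw [hp, hq]
      ring
    rw [this]
    exact K.mul_mem_left _ hN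
  have t1 := s6 p q s4 N _ hN'
  have t2 := s6 q p s5 N (q ^ N) (by rwa [mul_comm])
  obtain ⟨u, v, e⟩ : IsCoprime (p ^ N * p ^ N) (q ^ N * q ^ N) := by
    rw [← pow_add, ← pow_add]
    exact hpq.pow
  have : (1 : S) ∈ K := by
    rw [← e]
    exact K.add_mem (K.mul_mem_left _ t1) (K.mul_mem_left _ t2)
  simpa [hK] using this

end Pool.Agent.Work.MP_164b00_al
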