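import Pool.Agent.Lib.TorusDegree.Degree
import Pool.Agent.Work.MP_164b00_al.Unimod
import Mathlib.Analysis.SpecialFunctions.ExpDeriv
import Mathlib.Analysis.Complex.RealDeriv

/-!
The topological obstruction: a degree computation on the five dimensional torus.
-/

namespace Pool.Agent.Work.MP_164b00_al

open Pool.Agent.Lib.TorusDegree Complex
open scoped ContDiff Real ComplexConjugate

/-- Smooth complex functions periodic in the angles. -/
structure CP (F : (Fin 6 → ℝ) → ℂ) : Prop where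
  sm : ContDiff ℝ ∞ F
  per : ∀ (i : Fin 5) y, F (y + Pi.single i.succ (2 * π)) = F y

theorem CP.add {F G : (Fin 6 → ℝ) → ℂ} (hF : CP F) (hG : CP G) : CP fun y => F y + G y :=
  ⟨hF.1.add hG.1, fun i y => by simp [hF.2, hG.2]⟩

theorem CP.sub {F G : (Fin 6 → ℝ) → ℂ} (hF : CP F) (hG : CP G) : CP fun y => F y - G y :=
  ⟨hF.1.sub hG.1, fun i y => by simp [hF.2, hG.2]⟩

theorem CP.mul {F G : (Fin 6 → ℝ) → ℂ} (hF : CP F) (hG : CP G) : CP fun y => F y * G y :=
  ⟨hF.1.mul hG.1, fun i y => by simp [hF.2, hG.2]⟩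

theorem CP.pow {F : (Fin 6 → ℝ) → ℂ} (hF : CP F) (k : ℕ) : CP fun y => F y ^ k :=
  ⟨hF.1.pow k, fun i y => by simp [hF.2]⟩

theorem CP.const (c : ℂ) : CP fun _ => c := ⟨contDiff_const, fun _ _ => rfl⟩

theorem CP.conj {F : (Fin 6 → ℝ) → ℂ} (hF : CP F) : CP fun y => conj (F y) :=
  ⟨Complex.conjCLE.contDiff.comp hF.1, fun i y => by simp [hF.2]⟩

theorem CP.level : CP fun y => (y 0 : ℂ) :=
  ⟨Complex.ofRealCLM.contDiff.comp (contDiff_apply ℝ ℝ 0), fun i y => by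
    simp [(Fin.succ_ne_zero i).symm]⟩

theorem CP.exp (j : Fin 5) : CP fun y => exp (y j.succ * I) :=
  ⟨((Complex.ofRealCLM.contDiff.comp (contDiff_apply ℝ ℝ j.succ)).mul contDiff_const).cexp,
    fun i y => by
      by_cases h : j = i
      · subst h
        simp [add_mul, Complex.exp_add]
      · simp [h]⟩

/-- Real part. -/
noncomputable def reP {F : (Fin 6 → ℝ) → ℂ} (hF : CP F) : Per 5 :=
  ⟨fun y => (F y).re, Complex.reCLM.contDiff.comp hF.1, fun i y => by simp [hF.2]⟩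

/-- Imaginary part. -/
noncomputable def imP {F : (Fin 6 → ℝ) → ℂ} (hF : CP F) : Per 5 :=
  ⟨fun y => (F y).im, Complex.imCLM.contDiff.comp hF.1, fun i y => by simp [hF.2]⟩

/-- Three complex functions as six real ones. -/
noncomputable def vec {F : Fin 3 → (Fin 6 → ℝ) → ℂ} (hF : ∀ i, CP (F i)) : Fin 6 → Per 5 :=
  ![reP (hF 0), imP (hF 0), reP (hF 1), imP (hF 1), reP (hF 2), imP (hF 2)]

theorem vec_ne {F : Fin 3 → (Fin 6 → ℝ) → ℂ} (hF : ∀ i, CP (F i)) (y : Fin 6 → ℝ)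
    (h : ¬ ∀ i, F i y = 0) : ∃ i, (vec hF i).1 y ≠ 0 := by
  by_contra h'
  push Not at h'
  apply h
  intro i
  fin_cases i
  · exact Complex.ext (h' 0) (h' 1)
  · exact Complex.ext (h' 2) (h' 3)
  · exact Complex.ext (h' 4) (h' 5)

theorem vec_congr {F G : Fin 3 → (Fin 6 → ℝ) → ℂ} (hF : ∀ i, CP (F i)) (hG : ∀ i, CP (G i))
    {y y' : Fin 6 → ℝ} (h : ∀ i, F i y = G i y') (i : Fin 6) :
    (vec hF i).1 y = (vec hG i).1 y' := by
  fin_cases i
  · exact congrArg Complex.re (h 0)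
  · exact congrArg Complex.im (h 0)
  · exact congrArg Complex.re (h 1)
  · exact congrArg Complex.im (h 1)
  · exact congrArg Complex.re (h 2)
  · exact congrArg Complex.im (h 2)

/-- The four angles. -/
def th (y : Fin 6 → ℝ) : Fin 4 → ℝ := fun i => y i.castSucc.succ

/-- The point of the unit circle. -/
noncomputable def ex (θ : Fin 4 → ℝ) : Fin 4 → ℂ := fun i => exp (θ i * I)

/-- The conjugate point. -/
noncomputable def ew (θ : Fin 4 → ℝ) : Fin 4 → ℂ := fun i => conj (exp (θ i * I))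

/-- The unit vector. -/
noncomputable def zz (y : Fin 6 → ℝ) : ℂ := exp (y (Fin.last 4).succ * I)

/-- The row evaluated in the representation with angles `θ`, applied to `z`. -/
noncomputable def Psi (θ : Fin 4 → ℝ) (z : ℂ) : Fin 3 → ℂ :=
  ![vs (ex θ 0) (ew θ 0) ^ 2 * z + ka (ex θ 0) (ew θ 0) ^ 2 * conj z,
    F1 (ex θ) (ew θ) * z, F2 (ex θ) (ew θ) * z]

/-- Deformation of `ka`. -/
def kas (s x w : ℂ) : ℂ := ka x w + s * (x ^ 3 - x + 1 - w + w ^ 3)

/-- Deformation of `F1`. -/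
def F1s (s : ℂ) (x w : Fin 4 → ℂ) : ℂ :=
  (1 + (1 - s) * x 1) * (vs (x 0) (w 0) * kas s (x 0) (w 0) * vs (x 1) (w 1)) + vs (x 2) (w 2)

/-- Deformation of `F2`. -/
def F2s (s : ℂ) (x w : Fin 4 → ℂ) : ℂ :=
  (1 + (1 - s) * x 0) * (kas s (x 1) (w 1) * kas s (x 2) (w 2) * kas s (x 3) (w 3)) +
    vs (x 3) (w 3)

/-- The second homotopy. -/
noncomputable def H2 (s : ℂ) (θ : Fin 4 → ℝ) (z : ℂ) : Fin 3 → ℂ :=
  ![vs (ex θ 0) (ew θ 0) ^ 2 * z + kas s (ex θ 0) (ew θ 0) ^ 2 * conj z,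
    (1 - s) * z * F1s s (ex θ) (ew θ) - s * conj (F2s s (ex θ) (ew θ)),
    (1 - s) * z * F2s s (ex θ) (ew θ) + s * conj (F1s s (ex θ) (ew θ))]

theorem cp_ex (i : Fin 4) : CP fun y => ex (th y) i := CP.exp _

theorem cp_ew (i : Fin 4) : CP fun y => ew (th y) i := (CP.exp _).conj

theorem cp_zz : CP zz := CP.exp _

theorem cp_vs (i : Fin 4) : CP fun y => vs (ex (th y) i) (ew (th y) i) :=
  ((cp_ex i).pow 4).sub ((cp_ew i).pow 4)

theorem cp_ka (i : Fin 4) : CP fun y => ka (ex (th y) i) (ew (th y) i) :=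
  (((((((cp_ex i).pow 4).sub ((cp_ex i).pow 3)).add (cp_ex i)).sub (CP.const 1)).add
    (cp_ew i)).sub ((cp_ew i).pow 3)).add ((cp_ew i).pow 4)

theorem cp_kas (i : Fin 4) : CP fun y => kas (y 0) (ex (th y) i) (ew (th y) i) :=
  (cp_ka i).add (CP.level.mul ((((((cp_ex i).pow 3).sub (cp_ex i)).add (CP.const 1)).sub
    (cp_ew i)).add ((cp_ew i).pow 3)))

theorem cp_F1s : CP fun y => F1s (y 0) (ex (th y)) (ew (th y)) :=
  (((CP.const 1).add (((CP.const 1).sub CP.level).mul (cp_ex 1))).mul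
    (((cp_vs 0).mul (cp_kas 0)).mul (cp_vs 1))).add (cp_vs 2)

theorem cp_F2s : CP fun y => F2s (y 0) (ex (th y)) (ew (th y)) :=
  (((CP.const 1).add (((CP.const 1).sub CP.level).mul (cp_ex 0))).mul
    (((cp_kas 1).mul (cp_kas 2)).mul (cp_kas 3))).add (cp_vs 3)

theorem cp_H2 (i : Fin 3) : CP fun y => H2 (y 0) (th y) (zz y) i := by
  fin_cases i
  · exact (((cp_vs 0).pow 2).mul cp_zz).add (((cp_kas 0).pow 2).mul cp_zz.conj)
  · exact ((((CP.const 1).sub CP.level).mul cp_zz).mul cp_F1s).sub (CP.level.mul cp_F2s.conj)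
  · exact ((((CP.const 1).sub CP.level).mul cp_zz).mul cp_F2s).add (CP.level.mul cp_F1s.conj)

theorem cp_Psi (i : Fin 3) : CP fun y => Psi (th y) (zz y) i := by
  fin_cases i
  · exact (((cp_vs 0).pow 2).mul cp_zz).add (((cp_ka 0).pow 2).mul cp_zz.conj)
  · exact ((((CP.const 1).add (cp_ex 1)).mul
      (((cp_vs 0).mul (cp_ka 0)).mul (cp_vs 1))).add (cp_vs 2)).mul cp_zz
  · exact ((((CP.const 1).add (cp_ex 0)).mul
      (((cp_ka 1).mul (cp_ka 2)).mul (cp_ka 3))).add (cp_vs 3)).mul cp_zz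

theorem H2_zero (θ : Fin 4 → ℝ) (z : ℂ) : H2 0 θ z = Psi θ z := by
  simp [H2, Psi, kas, F1s, F2s, F1, F2, mul_comm]

theorem exp_mul_conj (t : ℝ) : exp (t * I) * conj (exp (t * I)) = 1 := by
  rw [Complex.mul_conj, Complex.normSq_eq_norm_sq, Complex.norm_exp_ofReal_mul_I]
  simp

theorem not_both_s {s : ℝ} (h0 : 0 ≤ s) (h1 : s ≤ 1) {x w : ℂ} (h : x * w = 1)
    (hv : vs x w = 0) (hk : kas s x w = 0) : False := by
  simp only [vs, kas, ka] at hv hk
  have e4 : x ^ 4 * w ^ 4 = 1 := by rw [← mul_pow, h, one_pow]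
  have : (x ^ 4 - 1) * (x ^ 4 + 1) = 0 := by linear_combination x ^ 4 * hv + e4
  rcases mul_eq_zero.1 this with e | e
  · have a1 : x ^ 3 = w := by linear_combination w * e - x ^ 3 * h
    have a2 : w ^ 3 = x := by linear_combination (-x) * hv + x * e - w ^ 3 * h
    have a3 : ((1 + s : ℝ) : ℂ) = 0 := by
      push_cast
      linear_combination hk - 2 * e + hv + (1 - s) * a1 + (1 - s) * a2
    have : 1 + s = 0 := by exact_mod_cast a3
    linarith
  · have a1 : x ^ 3 = -w := by linear_combination w * e - x ^ 3 * h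
    have a2 : w ^ 3 = -x := by linear_combination (-x) * hv + x * e - w ^ 3 * h
    have a3 : 2 * (x + w) * (1 - s) = 3 - s := by
      linear_combination hk - 2 * e + hv + (1 - s) * a1 + (1 - s) * a2
    have a4 : (x + w) ^ 2 = 2 := by
      linear_combination 2 * h + w ^ 2 * e - (x ^ 2 + x ^ 3 * w) * h
    have a5 : ((1 + 10 * s - 7 * s ^ 2 : ℝ) : ℂ) = 0 := by
      push_cast
      linear_combination (-(2 * (x + w) * (1 - s) + 3 - s)) * a3 + 4 * (1 - s) ^ 2 * a4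
    have : 1 + 10 * s - 7 * s ^ 2 = 0 := by exact_mod_cast a5
    nlinarith

theorem vs_zero_s {s : ℝ} (h0 : 0 ≤ s) (h1 : s ≤ 1) {x : ℂ} (h : x * conj x = 1)
    (e : 2 + (1 - s) * (x + conj x) = 0) : vs x (conj x) = 0 := by
  have a1 := congrArg Complex.re h
  have a2 := congrArg Complex.re e
  simp at a1 a2
  have b1 : x.re = -1 := by nlinarith [sq_nonneg x.im, sq_nonneg (x.re + 1)]
  have b2 : x.im = 0 := by
    rw [b1] at a1
    nlinarith
  have : x = -1 := Complex.ext (by simpa using b1) (by simpa using b2)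
  subst this
  simp [vs]

theorem conj_vs (x : ℂ) : conj (vs x (conj x)) = -vs x (conj x) := by simp [vs]

theorem conj_kas (s : ℝ) (x : ℂ) : conj (kas s x (conj x)) = kas s x (conj x) := by
  simp [kas, ka]
  ring

theorem H2_ne {s : ℝ} (h0 : 0 ≤ s) (h1 : s ≤ 1) (θ : Fin 4 → ℝ) {z : ℂ} (hz : z * conj z = 1) :
    ¬ ∀ i, H2 s θ z i = 0 := by
  intro h
  have g0 : vs (ex θ 0) (ew θ 0) ^ 2 * z + kas s (ex θ 0) (ew θ 0) ^ 2 * conj z = 0 := h 0
  have g1 : (1 - s) * z * F1s s (ex θ) (ew θ) - s * conj (F2s s (ex θ) (ew θ)) = 0 := h 1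
  have g2 : (1 - s) * z * F2s s (ex θ) (ew θ) + s * conj (F1s s (ex θ) (ew θ)) = 0 := h 2
  have hxw : ∀ i, ex θ i * ew θ i = 1 := fun i => exp_mul_conj _
  have nb : ∀ i, vs (ex θ i) (ew θ i) = 0 → kas s (ex θ i) (ew θ i) = 0 → False :=
    fun i => not_both_s h0 h1 (hxw i)
  have hz0 : z ≠ 0 := left_ne_zero_of_mul_eq_one hz
  have hz1 : conj z ≠ 0 := right_ne_zero_of_mul_eq_one hz
  have v0 : vs (ex θ 0) (ew θ 0) ≠ 0 := fun e => nb 0 e (by simpa [e, hz0] using g0)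
  have k0 : kas s (ex θ 0) (ew θ 0) ≠ 0 := fun e => nb 0 (by simpa [e, hz0] using g0) e
  have g1' := congrArg conj g1
  have g2' := congrArg conj g2
  simp only [map_sub, map_mul, map_add, map_one, conj_ofReal, conj_conj, map_zero] at g1' g2'
  have hs : (((1 - s) ^ 2 + s ^ 2 : ℝ) : ℂ) ≠ 0 := by
    have : 0 < (1 - s) ^ 2 + s ^ 2 := by nlinarith [sq_nonneg (2 * s - 1)]
    exact_mod_cast this.ne'
  have f1 : F1s s (ex θ) (ew θ) = 0 := by
    refine (mul_eq_zero.1 ?_).resolve_left hs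
    push_cast
    linear_combination (1 - s) * conj z * g1 + s * g2' - (1 - s) ^ 2 * F1s s (ex θ) (ew θ) * hz
  have f2 : F2s s (ex θ) (ew θ) = 0 := by
    refine (mul_eq_zero.1 ?_).resolve_left hs
    push_cast
    linear_combination (1 - s) * conj z * g2 - s * g1' - (1 - s) ^ 2 * F2s s (ex θ) (ew θ) * hz
  have f1' := congrArg conj f1
  have f2' := congrArg conj f2
  have cv : ∀ i, conj (vs (ex θ i) (ew θ i)) = -vs (ex θ i) (ew θ i) := fun i => conj_vs _
  have ck : ∀ i, conj (kas s (ex θ i) (ew θ i)) = kas s (ex θ i) (ew θ i) := fun i => conj_kas _ _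
  have vz : ∀ i, 2 + (1 - s) * (ex θ i + conj (ex θ i)) = 0 → vs (ex θ i) (ew θ i) = 0 :=
    fun i => vs_zero_s h0 h1 (hxw i)
  simp only [F1s, F2s, map_sub, map_mul, map_add, map_one, conj_ofReal, map_zero, cv, ck]
    at f1 f2 f1' f2'
  have e1 : (2 + (1 - s) * (ex θ 1 + conj (ex θ 1))) *
      ((vs (ex θ 0) (ew θ 0) * kas s (ex θ 0) (ew θ 0)) * vs (ex θ 1) (ew θ 1)) = 0 := by
    linear_combination f1 + f1'
  have v1 : vs (ex θ 1) (ew θ 1) = 0 := by
    rcases mul_eq_zero.1 e1 with e | e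
    · exact vz 1 e
    · exact (mul_eq_zero.1 e).resolve_left (mul_ne_zero v0 k0)
  have v2 : vs (ex θ 2) (ew θ 2) = 0 := by
    rw [v1] at f1
    linear_combination f1
  have e2 : (2 + (1 - s) * (ex θ 0 + conj (ex θ 0))) *
      (kas s (ex θ 1) (ew θ 1) * kas s (ex θ 2) (ew θ 2) * kas s (ex θ 3) (ew θ 3)) = 0 := by
    linear_combination f2 + f2'
  rcases mul_eq_zero.1 e2 with e | e
  · exact v0 (vz 0 e)
  · have v3 : vs (ex θ 3) (ew θ 3) = 0 := by
      rw [e] at f2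
      linear_combination f2
    rcases mul_eq_zero.1 e with e | e
    · rcases mul_eq_zero.1 e with e | e
      · exact nb 1 v1 e
      · exact nb 2 v2 e
    · exact nb 3 v3 e

end Pool.Agent.Work.MP_164b00_al
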